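import Pool.Agent.Lib.MP_7b6720_al.INV.Iface

set_option autoImplicit false

/-!
# Modules EVW and DIH: alternating walks of two involutions
-/

namespace Pool.Agent.SymDiam.H70

open Equiv Finset

/-- EVW -/
theorem evw : EvwS := by
  intro n g b m x
  induction m with
  | zero => exact ⟨rfl, rfl⟩
  | succ m ih =>
    have h1 : walk g b x (2 * (m + 1)) = ((g * b) ^ (m + 1)) x := by
      have h2 : walk g b x (2 * m + 1 + 1) = g (walk g b x (2 * m + 1)) := by
        rw [walk, if_neg (by omega)]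
      rw [show 2 * (m + 1) = 2 * m + 1 + 1 by ring, h2, ih.2, pow_succ', Perm.mul_apply,
        Perm.mul_apply]
    refine ⟨h1, ?_⟩
    rw [walk, if_pos (by omega), h1]

namespace DihAux

variable {n : ℕ} {g b : Perm (Fin n)}

theorem conj_b (hg : g * g = 1) (hb : b * b = 1) (m : ℕ) (y : Fin n) :
    b (((g * b) ^ m) y) = ((g * b) ^ m)⁻¹ (b y) := by
  have hgi : g⁻¹ = g := inv_eq_of_mul_eq_one_left hg
  have hbi : b⁻¹ = b := inv_eq_of_mul_eq_one_left hb
  have h1 : b * (g * b) * b⁻¹ = (g * b)⁻¹ := by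
    rw [mul_inv_rev, hgi, hbi]
    calc b * (g * b) * b = b * g * (b * b) := by group
      _ = b * g := by rw [hb, mul_one]
  have h2 : b * (g * b) ^ m * b⁻¹ = ((g * b) ^ m)⁻¹ := by
    rw [← conj_pow, h1, inv_pow]
  have h3 : b * (g * b) ^ m = ((g * b) ^ m)⁻¹ * b := by
    rw [← h2]; group
  exact congrArg (fun q : Perm (Fin n) => q y) h3

theorem conj_g (hg : g * g = 1) (hb : b * b = 1) (m : ℕ) (y : Fin n) :
    g (((g * b) ^ m) y) = ((g * b) ^ m)⁻¹ (g y) := by
  have hgi : g⁻¹ = g := inv_eq_of_mul_eq_one_left hg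
  have hbi : b⁻¹ = b := inv_eq_of_mul_eq_one_left hb
  have h1 : g * (g * b) * g⁻¹ = (g * b)⁻¹ := by
    rw [mul_inv_rev, hgi, hbi, ← mul_assoc, hg, one_mul]
  have h2 : g * (g * b) ^ m * g⁻¹ = ((g * b) ^ m)⁻¹ := by
    rw [← conj_pow, h1, inv_pow]
  have h3 : g * (g * b) ^ m = ((g * b) ^ m)⁻¹ * g := by
    rw [← h2]; group
  exact congrArg (fun q : Perm (Fin n) => q y) h3

theorem pow_sub_apply {a c : ℕ} (hac : a < c) {p : Perm (Fin n)} {x : Fin n}
    (h : (p ^ a) x = (p ^ c) x) : (p ^ (c - a)) x = x := by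
  have h1 : p ^ c = p ^ a * p ^ (c - a) := by rw [← pow_add]; congr 1; omega
  rw [h1, Perm.mul_apply] at h
  exact ((p ^ a).injective h).symm

theorem mixed (hg : g * g = 1) (hb : b * b = 1) {a c : ℕ} {x : Fin n}
    (h : ((g * b) ^ a) x = b (((g * b) ^ c) x)) : b x = ((g * b) ^ (c + a)) x := by
  rw [conj_b hg hb, Perm.eq_inv_iff_eq] at h
  rw [pow_add, Perm.mul_apply, h]

theorem short (hE : EvwS) (hg : g * g = 1) (hb : b * b = 1) {K : ℕ} {x : Fin n}
    (h : ¬ Dist g b (2 * K) x) :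
    (∃ d, 1 ≤ d ∧ d < K ∧ ((g * b) ^ d) x = x) ∨
      ∃ s, s + 2 ≤ 2 * K ∧ b x = ((g * b) ^ s) x := by
  unfold Dist at h
  push Not at h
  obtain ⟨i, hi, j, hj, hij, hne⟩ := h
  obtain ⟨a, ha | ha⟩ : ∃ a, i = 2 * a ∨ i = 2 * a + 1 := ⟨i / 2, by omega⟩
  · obtain ⟨c, hc | hc⟩ : ∃ c, j = 2 * c ∨ j = 2 * c + 1 := ⟨j / 2, by omega⟩
    · subst ha hc
      rw [(hE n g b a x).1, (hE n g b c x).1] at hij
      left
      rcases lt_or_gt_of_ne (show a ≠ c by omega) with h1 | h1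
      · exact ⟨c - a, by omega, by omega, pow_sub_apply h1 hij⟩
      · exact ⟨a - c, by omega, by omega, pow_sub_apply h1 hij.symm⟩
    · subst ha hc
      rw [(hE n g b a x).1, (hE n g b c x).2] at hij
      right
      exact ⟨c + a, by omega, mixed hg hb hij⟩
  · obtain ⟨c, hc | hc⟩ : ∃ c, j = 2 * c ∨ j = 2 * c + 1 := ⟨j / 2, by omega⟩
    · subst ha hc
      rw [(hE n g b a x).2, (hE n g b c x).1] at hij
      right
      exact ⟨a + c, by omega, mixed hg hb hij.symm⟩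
    · subst ha hc
      rw [(hE n g b a x).2, (hE n g b c x).2] at hij
      have hij := b.injective hij
      left
      rcases lt_or_gt_of_ne (show a ≠ c by omega) with h1 | h1
      · exact ⟨c - a, by omega, by omega, pow_sub_apply h1 hij⟩
      · exact ⟨a - c, by omega, by omega, pow_sub_apply h1 hij.symm⟩

end DihAux

open DihAux in
/-- DIH -/
theorem dih (hE : EvwS) : DihS := by
  intro n g b hg hb K x hK h1 h2
  have key : ∃ d, 1 ≤ d ∧ d ≤ 4 * K ∧ ((g * b) ^ d) x = x := by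
    rcases short hE hg hb h1 with ⟨d, hd1, hd2, hd⟩ | ⟨s, hs, hbx⟩
    · exact ⟨d, hd1, by omega, hd⟩
    rcases short hE hg hb h2 with ⟨d, hd1, hd2, hd⟩ | ⟨s', hs', hbg⟩
    · refine ⟨d, hd1, by omega, ?_⟩
      have h3 := conj_g hg hb d x
      rw [← hd] at h3
      have h4 : ((g * b) ^ d)⁻¹ (((g * b) ^ d) (g x)) = g x := by
        rw [← Perm.mul_apply, inv_mul_cancel, Perm.one_apply]
      rw [h4] at h3
      exact g.injective h3
    · refine ⟨s + (s' + 1) + 1, by omega, by omega, ?_⟩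
      -- `g x = p⁻⁽ˢ'⁺¹⁾ x`
      have hgx : ((g * b) ^ (s' + 1)) (g x) = x := by
        rw [pow_succ', Perm.mul_apply, ← hbg, Perm.mul_apply, ← Perm.mul_apply b b, hb,
          Perm.one_apply, ← Perm.mul_apply, hg, Perm.one_apply]
      -- `p x = g b x = g pˢ x = p⁻ˢ g x`
      have h3 : (g * b) x = ((g * b) ^ s)⁻¹ (g x) := by
        rw [Perm.mul_apply, hbx, conj_g hg hb]
      have h4 : ((g * b) ^ s) ((g * b) x) = g x := by
        rw [h3, ← Perm.mul_apply, mul_inv_cancel, Perm.one_apply]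
      have h5 : (g * b) ^ (s + (s' + 1) + 1) =
          (g * b) ^ (s' + 1) * ((g * b) ^ s * (g * b)) := by
        rw [← pow_succ, ← pow_add]
        congr 1
        omega
      rw [h5, Perm.mul_apply, Perm.mul_apply, h4, hgx]
  obtain ⟨d, hd1, hd2, hd⟩ := key
  obtain ⟨c, hc⟩ : d ∣ (4 * K).factorial := Nat.dvd_factorial hd1 hd2
  rw [hc, pow_mul]
  exact Function.IsFixedPt.perm_pow hd c

end Pool.Agent.SymDiam.H70
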